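import Mathlib

set_option autoImplicit false

open MeasureTheory Filter Set Metric Module
open scoped Topology ENNReal NNReal Function

namespace Pool.Agent.H.MP_a7495c_an

section net
variable {E : Type} [NormedAddCommGroup E] [NormedSpace ℝ E] [FiniteDimensional ℝ E]

lemma pack {R r : ℝ} (hR : 0 ≤ R) (hr : 0 < r) (s : Finset E) (hs : ∀ c ∈ s, ‖c‖ ≤ R)
    (h : ∀ c ∈ s, ∀ d ∈ s, c ≠ d → 2 * r ≤ dist c d) :
    (s.card : ℝ) ≤ ((R + r) / r) ^ finrank ℝ E := by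
  borelize E
  let μ : Measure E := Measure.addHaar
  have ρpos : 0 < R + r := by positivity
  have D : Set.Pairwise (s : Set E) (Disjoint on fun c => ball (c : E) r) := by
    rintro c hc d hd hcd
    exact ball_disjoint_ball (by linarith [h c hc d hd hcd])
  have A : (⋃ c ∈ s, ball (c : E) r) ⊆ ball (0 : E) (R + r) :=
    iUnion₂_subset fun x hx => ball_subset_ball' (by rw [dist_zero_right]; linarith [hs x hx])
  have I := measure_mono (μ := μ) A
  rw [measure_biUnion_finset D fun c _ => measurableSet_ball] at I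
  simp only [μ.addHaar_ball_of_pos _ hr, μ.addHaar_ball_of_pos _ ρpos, Finset.sum_const,
    nsmul_eq_mul, ← mul_assoc] at I
  have J := (ENNReal.mul_le_mul_iff_left (measure_ball_pos _ _ zero_lt_one).ne'
    measure_ball_lt_top.ne).1 I
  have K := ENNReal.toReal_le_of_le_ofReal (pow_nonneg ρpos.le _) J
  rw [ENNReal.toReal_mul, ENNReal.toReal_ofReal (by positivity), ENNReal.toReal_natCast] at K
  rwa [div_pow, le_div_iff₀ (by positivity)]

lemma net {K : Set E} {R r : ℝ} (hR : 0 ≤ R) (hr : 0 < r) (hK : ∀ c ∈ K, ‖c‖ ≤ R) :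
    ∃ s : Finset E, (∀ c ∈ s, c ∈ K) ∧ (s.card : ℝ) ≤ ((R + r) / r) ^ finrank ℝ E ∧
      ∀ y ∈ K, ∃ z ∈ s, dist z y < 2 * r := by
  classical
  let P : ℕ → Prop := fun N => ∃ s : Finset E, s.card = N ∧ (∀ c ∈ s, c ∈ K) ∧
    ∀ c ∈ s, ∀ d ∈ s, c ≠ d → 2 * r ≤ dist c d
  obtain ⟨B, hB⟩ := exists_nat_ge (((R + r) / r) ^ finrank ℝ E)
  have hb : ∀ N, P N → N ≤ B := by
    rintro _ ⟨s, rfl, h1, h2⟩
    exact_mod_cast (pack hR hr s (fun c hc => hK c (h1 c hc)) h2).trans hB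
  obtain ⟨s, hs, h1, h2⟩ : P (Nat.findGreatest P B) :=
    Nat.findGreatest_spec (Nat.zero_le B) ⟨∅, by simp⟩
  refine ⟨s, h1, pack hR hr s (fun c hc => hK c (h1 c hc)) h2, fun y hy => ?_⟩
  by_contra hc
  push Not at hc
  have hys : y ∉ s := fun h => by have := hc y h; rw [dist_self] at this; linarith
  have : P (s.card + 1) := by
    refine ⟨insert y s, Finset.card_insert_of_notMem hys, ?_, ?_⟩
    · intro c hc'
      rcases Finset.mem_insert.1 hc' with rfl | h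
      exacts [hy, h1 c h]
    · intro c hc' d hd hcd
      rcases Finset.mem_insert.1 hc' with rfl | h <;> rcases Finset.mem_insert.1 hd with rfl | h'
      · exact absurd rfl hcd
      · rw [dist_comm]; exact hc d h'
      · exact hc c h
      · exact h2 c h d h' hcd
  have := Nat.le_findGreatest (hb _ this) this
  omega

end net

def Sub (f : ℕ → ℝ) : Prop :=
  (∀ n, 0 < f n) ∧ Tendsto (fun n : ℕ => Real.log (f n) / n) atTop (𝓝 0)

lemma Sub.const {c : ℝ} (hc : 0 < c) : Sub fun _ => c :=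
  ⟨fun _ => hc, tendsto_const_div_atTop_nhds_zero_nat _⟩

lemma Sub.mul {f g : ℕ → ℝ} (hf : Sub f) (hg : Sub g) : Sub fun n => f n * g n :=
  ⟨fun n => mul_pos (hf.1 n) (hg.1 n), by
    simpa [Real.log_mul (hf.1 _).ne' (hg.1 _).ne', add_div] using hf.2.add hg.2⟩

lemma Sub.rpow {f : ℕ → ℝ} (hf : Sub f) (a : ℝ) : Sub fun n => f n ^ a :=
  ⟨fun n => Real.rpow_pos_of_pos (hf.1 n) a, by
    simpa [Real.log_rpow (hf.1 _), mul_div_assoc] using hf.2.const_mul a⟩

lemma Sub.pow {f : ℕ → ℝ} (hf : Sub f) (a : ℕ) : Sub fun n => f n ^ a := by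
  simpa using hf.rpow a

lemma Sub.inv {f : ℕ → ℝ} (hf : Sub f) : Sub fun n => (f n)⁻¹ := by
  simpa [Real.rpow_neg_one] using hf.rpow (-1)

lemma Sub.succ : Sub fun n => (n : ℝ) + 1 :=
  ⟨fun n => by positivity, by
    have := (Real.tendsto_pow_log_div_mul_add_atTop 1 (-1) 1 one_ne_zero).comp
      (tendsto_atTop_add_const_right _ 1 tendsto_natCast_atTop_atTop)
    refine this.congr fun n => ?_
    simp⟩

lemma Sub.lim {f : ℕ → ℝ} (hf : Sub f) :
    Tendsto (fun n : ℕ => f n ^ ((1 : ℝ) / n)) atTop (𝓝 1) := by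
  have := (Real.continuous_exp.tendsto 0).comp hf.2
  rw [Real.exp_zero] at this
  refine this.congr fun n => ?_
  rw [Real.rpow_def_of_pos (hf.1 n), Function.comp, mul_one_div]

section far
variable {X : Type} [MetricSpace X] [MeasurableSpace X] [BorelSpace X]

lemma ball_le {α I t : ℝ} (hα : 0 < α) (hI : 0 < I) (ht : 0 < t) (ν : Measure X)
    [IsProbabilityMeasure ν] (h : ∫⁻ x, ∫⁻ y, edist x y ^ (-α) ∂ν ∂ν ≤ ENNReal.ofReal I) (c : X) :
    ν.real (ball c ((I * t ^ 2) ^ (-α⁻¹) / 2)) ≤ t⁻¹ := by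
  obtain ⟨ρ, hρ⟩ : ∃ ρ, ρ = (I * t ^ 2) ^ (-α⁻¹) := ⟨_, rfl⟩
  have hρ0 : 0 < ρ := by rw [hρ]; positivity
  have e : ρ ^ (-α) = I * t ^ 2 := by
    rw [hρ, ← Real.rpow_mul (by positivity), neg_mul_neg, inv_mul_cancel₀ hα.ne', Real.rpow_one]
  rw [← hρ]
  have k : ENNReal.ofReal (I * t ^ 2) * ν (ball c (ρ / 2)) * ν (ball c (ρ / 2)) ≤
      ENNReal.ofReal I := by
    refine le_trans ?_ h
    rw [← setLIntegral_const]
    refine le_trans (setLIntegral_mono' measurableSet_ball fun x hx => ?_)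
      (setLIntegral_le_lintegral _ _)
    rw [← setLIntegral_const]
    refine le_trans (setLIntegral_mono' measurableSet_ball fun y hy => ?_)
      (setLIntegral_le_lintegral _ _)
    rw [← e, ← ENNReal.ofReal_rpow_of_pos hρ0, ENNReal.rpow_neg, ENNReal.rpow_neg]
    refine ENNReal.inv_le_inv.2 (ENNReal.rpow_le_rpow ?_ hα.le)
    rw [edist_dist]
    refine ENNReal.ofReal_le_ofReal ?_
    linarith [dist_triangle_right x y c, mem_ball.1 hx, mem_ball.1 hy]
  have k2 := ENNReal.toReal_le_of_le_ofReal hI.le k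
  rw [ENNReal.toReal_mul, ENNReal.toReal_mul, ENNReal.toReal_ofReal (by positivity)] at k2
  have k3 : (t * ν.real (ball c (ρ / 2))) ^ 2 ≤ 1 ^ 2 := by
    refine le_of_mul_le_mul_left ?_ hI
    simp only [Measure.real]
    nlinarith
  have := abs_le_of_sq_le_sq' k3 zero_le_one
  rw [inv_eq_one_div, le_div_iff₀ ht]
  linarith [this.2]

lemma far {α I : ℝ} (hα : 0 < α) (hI : 0 < I) (ν : Measure X) [IsProbabilityMeasure ν] {K : Set X}
    (hK : ν Kᶜ = 0) (h : ∫⁻ x, ∫⁻ y, edist x y ^ (-α) ∂ν ∂ν ≤ ENNReal.ofReal I) (n : ℕ)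
    (J : Finset ℕ) (hJ : J.card ≤ n) (x : ℕ → X) :
    ∃ y ∈ K, (∀ j ∈ J, y ≠ x j) ∧ ∑ j ∈ J, dist y (x j) ^ (-α) ≤ 2 ^ α * I * (n + 1) ^ 3 := by
  obtain ⟨ρ, hρ⟩ : ∃ ρ, ρ = (I * ((n : ℝ) + 1) ^ 2) ^ (-α⁻¹) := ⟨_, rfl⟩
  have hρ0 : 0 < ρ := by rw [hρ]; positivity
  have e : ρ ^ (-α) = I * ((n : ℝ) + 1) ^ 2 := by
    rw [hρ, ← Real.rpow_mul (by positivity), neg_mul_neg, inv_mul_cancel₀ hα.ne', Real.rpow_one]
  have hJ' : (J.card : ℝ) ≤ n := by exact_mod_cast hJ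
  obtain ⟨y, hy, hy2⟩ : ∃ y ∈ K, ∀ j ∈ J, ρ / 2 ≤ dist y (x j) := by
    by_contra hc
    push Not at hc
    have h1 : (univ : Set X) ⊆ Kᶜ ∪ ⋃ j ∈ J, ball (x j) (ρ / 2) := fun y _ => by
      by_cases hy : y ∈ K
      · obtain ⟨j, hj, h⟩ := hc y hy
        exact Or.inr (mem_biUnion hj h)
      · exact Or.inl hy
    have h2 := (measureReal_mono h1).trans ((measureReal_union_le (μ := ν) _ _).trans
      (add_le_add le_rfl (measureReal_biUnion_finset_le J _)))
    have h3 : ∑ j ∈ J, ν.real (ball (x j) (ρ / 2)) ≤ J.card • ((n : ℝ) + 1)⁻¹ :=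
      Finset.sum_le_card_nsmul _ _ _ fun j _ => hρ ▸ ball_le hα hI (by positivity) ν h _
    rw [probReal_univ, Measure.real, hK, ENNReal.toReal_zero, zero_add] at h2
    rw [nsmul_eq_mul, ← div_eq_mul_inv] at h3
    have : (J.card : ℝ) / (n + 1) < 1 := (div_lt_one (by positivity)).2 (by linarith)
    linarith
  refine ⟨y, hy, fun j hj h => ?_, ?_⟩
  · have := hy2 j hj
    rw [h, dist_self] at this
    linarith
  · have : ∑ j ∈ J, dist y (x j) ^ (-α) ≤ J.card • (2 ^ α * (I * ((n : ℝ) + 1) ^ 2)) :=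
      Finset.sum_le_card_nsmul _ _ _ fun j hj => by
        refine (Real.rpow_le_rpow_of_nonpos (by positivity) (hy2 j hj) (by linarith)).trans_eq ?_
        rw [Real.div_rpow hρ0.le zero_le_two, e, Real.rpow_neg zero_le_two]
        field_simp
    rw [nsmul_eq_mul] at this
    refine this.trans ?_
    calc _ ≤ ((n : ℝ) + 1) * (2 ^ α * (I * ((n : ℝ) + 1) ^ 2)) := by gcongr; linarith
      _ = _ := by ring

end far

lemma near {X : Type} [MetricSpace X] {α S : ℝ} (hα : 0 < α) (hS : 1 ≤ S) (J : Finset ℕ)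
    (x : ℕ → X) {y z : X} (hy : ∀ j ∈ J, y ≠ x j) (h : ∑ j ∈ J, dist y (x j) ^ (-α) ≤ S)
    (hz : dist z y ≤ S ^ (-α⁻¹) * ((4 * α + 2) * S)⁻¹) :
    (∀ j ∈ J, z ≠ x j) ∧ ∑ j ∈ J, dist z (x j) ^ (-α) ≤ ∑ j ∈ J, dist y (x j) ^ (-α) + 1 := by
  obtain ⟨δ, hδ⟩ : ∃ δ, δ = ((4 * α + 2) * S)⁻¹ := ⟨_, rfl⟩
  rw [← hδ] at hz
  have hδ0 : 0 < δ := by rw [hδ]; positivity
  have hδ1 : δ * ((4 * α + 2) * S) = 1 := by rw [hδ]; field_simp
  have hδ3 : δ * (4 * α + 2) ≤ 1 := by nlinarith [mul_pos hδ0 (by positivity : 0 < 4 * α + 2)]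
  have hδ2 : δ ≤ 1 / 2 := by nlinarith [mul_pos hδ0 hα]
  have k : ∀ j ∈ J, Real.exp (-(2 * δ)) * dist y (x j) ≤ dist z (x j) := fun j hj => by
    have p : 0 < dist y (x j) := dist_pos.2 (hy j hj)
    have h1 : dist y (x j) ^ (-α) ≤ S :=
      (Finset.single_le_sum (f := fun j => dist y (x j) ^ (-α)) (fun _ _ => by positivity) hj).trans h
    have h2 : S ^ (-α⁻¹) ≤ dist y (x j) := by
      refine (Real.rpow_le_rpow_of_nonpos (by positivity) h1
        (neg_nonpos.2 (by positivity))).trans_eq ?_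
      rw [← Real.rpow_mul p.le, neg_mul_neg, mul_inv_cancel₀ hα.ne', Real.rpow_one]
    have h3 : Real.exp (-(2 * δ)) ≤ 1 - δ := by
      rw [Real.exp_neg, inv_le_comm₀ (Real.exp_pos _) (by linarith)]
      refine le_trans ?_ (Real.add_one_le_exp _)
      rw [inv_eq_one_div, div_le_iff₀ (by linarith)]
      nlinarith
    have h4 := dist_triangle_left y (x j) z
    nlinarith [mul_le_mul_of_nonneg_right h2 hδ0.le, mul_le_mul_of_nonneg_right h3 p.le]
  refine ⟨fun j hj e => ?_, ?_⟩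
  · have := k j hj
    rw [e, dist_self] at this
    exact this.not_gt (mul_pos (Real.exp_pos _) (dist_pos.2 (e ▸ hy j hj)))
  · have h5 : Real.exp (2 * δ * α) ≤ 1 + 4 * δ * α := by
      have := Real.abs_exp_sub_one_le (x := 2 * δ * α)
        (by rw [abs_of_pos (by positivity)]; nlinarith)
      rw [abs_of_pos (by positivity : 0 < 2 * δ * α)] at this
      linarith [le_abs_self (Real.exp (2 * δ * α) - 1)]
    have h6 : ∑ j ∈ J, dist z (x j) ^ (-α) ≤ (1 + 4 * δ * α) * ∑ j ∈ J, dist y (x j) ^ (-α) := by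
      rw [Finset.mul_sum]
      refine Finset.sum_le_sum fun j hj => ?_
      have p : 0 < dist y (x j) := dist_pos.2 (hy j hj)
      refine (Real.rpow_le_rpow_of_nonpos (by positivity) (k j hj) (by linarith)).trans ?_
      rw [Real.mul_rpow (Real.exp_pos _).le p.le, ← Real.exp_mul, neg_mul_neg]
      gcongr
    nlinarith [mul_le_mul_of_nonneg_left h (by positivity : 0 ≤ 4 * δ * α), mul_pos hδ0 (by linarith : 0 < S)]

end Pool.Agent.H.MP_a7495c_an
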